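import Pool.Agent.H17.FR.Targets
import Pool.Agent.H64.SC.Api

/-!
Module PLC (target T_PLC) of block B7 for MP_f2954d_ag.
-/

namespace H50FR

open SC FR

section Aux

variable {k k' K L : Type} [Field k] [Field k'] [Field K] [Field L] [Algebra k K]
  [Algebra k' L] [Algebra K L] [Algebra k k'] [Algebra k L] [IsScalarTower k K L]
  [IsScalarTower k k' L]

omit [Algebra k' L] [Algebra k k'] [Algebra k L] [IsScalarTower k K L] [IsScalarTower k k' L]
  [Field k'] in
lemma map_base_eq [Algebra k L] [IsScalarTower k K L] [Field k'] [Algebra k k'] [Algebra k' L]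
    [IsScalarTower k k' L] (c : k) :
    algebraMap K L (algebraMap k K c) = algebraMap k' L (algebraMap k k' c) := by
  rw [← IsScalarTower.algebraMap_apply k K L, IsScalarTower.algebraMap_apply k k' L]

/-- forms of degree `n` divided by `y ^ n` are regular at the place -/
lemma form_nonneg (W : Submodule k K) (y : K) (P : DV k' L) (hy : y ≠ 0)
    (hP : ∀ u ∈ W, u ≠ 0 → P.ord (algebraMap K L y) ≤ P.ord (algebraMap K L u)) (n : ℕ) :
    ∀ b ∈ W ^ n, 0 ≤ P.ord (algebraMap K L (b / y ^ n)) := by
  have hy' : algebraMap K L y ≠ 0 := by simpa using hy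
  induction n with
  | zero =>
    intro b hb
    rw [pow_zero] at hb
    obtain ⟨c, rfl⟩ := Submodule.mem_one.1 hb
    rw [pow_zero, div_one, map_base_eq (k' := k') c, P.ord_base]
  | succ n ih =>
    intro b hb
    rw [pow_succ] at hb
    refine Submodule.mul_induction_on hb ?_ ?_
    · intro m hm u hu
      have e : m * u / y ^ (n + 1) = (m / y ^ n) * (u / y) := by
        rw [pow_succ, mul_div_mul_comm]
      rw [e, map_mul]
      refine P.ord_mul_nonneg (ih m hm) ?_
      by_cases hu0 : u = 0
      · subst hu0; simp [P.ord_zero]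
      · rw [map_div₀, P.ord_div (by simpa using hu0) hy']
        have := hP u hu hu0
        omega
    · intro x z hx hz
      rw [add_div, map_add]
      exact P.ord_add_nonneg hx hz

omit [Algebra k' L] [Algebra k k'] [Algebra k L] [IsScalarTower k K L] [IsScalarTower k k' L]
  [Field k'] [Algebra k K] [Field k] [Field K] [Algebra K L] in
lemma mul_mem_Reg [Field k'] [Algebra k' L] {P : DV k' L} {D : Derivation k' L L} {c z : L}
    (hc : 0 ≤ P.ord c) (hz : z ∈ Reg P D) : c * z ∈ Reg P D :=
  (Reg P D).smul_mem (⟨c, hc⟩ : P.vs) hz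

omit [Algebra k' L] [Algebra k k'] [Algebra k L] [IsScalarTower k K L] [IsScalarTower k k' L]
  [Field k'] [Algebra k K] [Field k] [Field K] [Algebra K L] in
lemma mul_D_mem_Reg [Field k'] [Algebra k' L] {P : DV k' L} {D : Derivation k' L L} {c z : L}
    (hc : 0 ≤ P.ord c) (hz : 0 ≤ P.ord z) : c * D z ∈ Reg P D :=
  mul_mem_Reg hc (Submodule.subset_span ⟨z, hz, rfl⟩)

end Aux

/-- at a place centered on the chart `y ≠ 0` -/
theorem plc (hDLL : T_DLL) : T_PLC := by
  intro k k' K L _ _ _ _ _ _ _ _ _ _ _ W y P D δ hδ hD hyW hy hP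
  have hy' : algebraMap K L y ≠ 0 := by simpa using hy
  have hquo : ∀ u ∈ W, 0 ≤ P.ord (algebraMap K L (u / y)) := by
    intro u hu
    have := form_nonneg W y P hy hP 1 u (by simpa using hu)
    simpa using this
  constructor
  · intro η hη
    refine Submodule.span_induction ?_ ?_ ?_ ?_ hη
    · rintro _ ⟨n, b, hb, u, hu, v, hv, rfl⟩
      have e : δ ((b / y ^ (n + 2)) • wed k u v) =
          algebraMap K L (b / y ^ n) * (algebraMap K L (u / y) * D (algebraMap K L (v / y)) -
            algebraMap K L (v / y) * D (algebraMap K L (u / y))) := by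
        rw [hδ, wed, map_sub, hδ, hδ, hD, hD]
        simp only [map_div₀, map_pow, Derivation.leibniz_div, smul_eq_mul]
        field_simp
        ring
      rw [e]
      have h1 := form_nonneg W y P hy hP n b hb
      exact mul_mem_Reg h1 (sub_mem (mul_D_mem_Reg (hquo u hu) (hquo v hv))
        (mul_D_mem_Reg (hquo v hv) (hquo u hu)))
    · rw [map_zero]; exact zero_mem _
    · intro a b _ _ ha hb
      rw [map_add]; exact add_mem ha hb
    · intro c a _ ha
      rw [← algebraMap_smul K c a, hδ]
      refine mul_mem_Reg ?_ ha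
      rw [map_base_eq (k' := k') c, P.ord_base]
  · intro n s q hq
    obtain ⟨hq1, hq2⟩ := hq
    have hnn : ∀ i j, 0 ≤ P.ord (algebraMap K L (q i * s.s j)) := by
      intro i j
      have h1 := form_nonneg W y P hy hP n _ (hq1 i j)
      rwa [mul_div_assoc, div_self (pow_ne_zero n hy), mul_one] at h1
    obtain ⟨i, hi0, hi⟩ : ∃ i, q i * s.s i ≠ 0 ∧ P.ord (algebraMap K L (q i * s.s i)) = 0 := by
      by_contra hcon
      push Not at hcon
      have h1 : (1 : ℤ) ≤ P.ord (∑ i, algebraMap K L (q i * s.s i)) := by
        refine P.ord_sum_ge _ _ ?_ ?_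
        · intro i _ hne
          have h2 : q i * s.s i ≠ 0 := by
            intro h0; rw [h0, map_zero] at hne; exact hne rfl
          have h3 := hcon i h2
          have h4 := hnn i i
          omega
        · rw [← map_sum, hq2, map_one]; exact one_ne_zero
      rw [← map_sum, hq2, map_one, P.ord_one] at h1
      omega
    have hqi : q i ≠ 0 := left_ne_zero_of_mul hi0
    have hsi : s.s i ≠ 0 := right_ne_zero_of_mul hi0
    have hqi' : algebraMap K L (q i) ≠ 0 := by simpa using hqi
    have hsi' : algebraMap K L (s.s i) ≠ 0 := by simpa using hsi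
    have hle : ∀ j, s.s j ≠ 0 →
        P.ord (algebraMap K L (s.s i)) ≤ P.ord (algebraMap K L (s.s j)) := by
      intro j hj
      have hj' : algebraMap K L (s.s j) ≠ 0 := by simpa using hj
      have h1 := hnn i j
      rw [map_mul, P.ord_mul _ _ hqi' hj'] at h1
      rw [map_mul, P.ord_mul _ _ hqi' hsi'] at hi
      omega
    refine ⟨i, hsi, ?_, ?_⟩
    · symm
      refine P.mo_eq_of ?_ ⟨i, hsi', rfl⟩
      intro j hj
      exact hle j (by intro h0; apply hj; show algebraMap K L (s.s j) = 0; rw [h0, map_zero])
    · have h1 := hDLL k K s q hq2 i hsi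
      have h2 := congrArg δ h1
      rw [map_sub, hδ, hD, map_sum] at h2
      have e : D (algebraMap K L (s.s i)) / algebraMap K L (s.s i) =
          algebraMap K L (s.s i)⁻¹ * D (algebraMap K L (s.s i)) := by
        rw [map_inv₀, div_eq_inv_mul]
      rw [e, h2]
      refine sum_mem fun j _ => ?_
      rw [hδ, hD]
      refine mul_D_mem_Reg (hnn j i) ?_
      by_cases hj : s.s j = 0
      · rw [hj, zero_div, map_zero, P.ord_zero]
      · rw [map_div₀, P.ord_div (by simpa using hj) hsi']
        have := hle j hj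
        omega

end H50FR
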