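import Pool.Agent.H48.FR.Targets
import Mathlib

/-!
# Module PA of fir_modules: choice of the parameters
-/

set_option autoImplicit false

namespace Pool.Agent.H50.FR

open Pool.Agent.H48.FR

private lemma c_bounds (n : ℕ) (hn : 1 ≤ n) :
    1 / 2 ≤ Real.cos (Real.pi / (2 * n + 1)) ∧ Real.cos (Real.pi / (2 * n + 1)) < 1 := by
  have hn' : (1 : ℝ) ≤ n := by exact_mod_cast hn
  have hpos : (0 : ℝ) < 2 * n + 1 := by linarith
  have h1 : 0 < Real.pi / (2 * n + 1) := div_pos Real.pi_pos hpos
  have h2 : Real.pi / (2 * n + 1) ≤ Real.pi / 3 := by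
    apply div_le_div_of_nonneg_left Real.pi_pos.le (by norm_num)
    linarith
  have h3 : Real.pi / 3 ≤ Real.pi := by
    have := Real.pi_pos
    linarith
  constructor
  · rw [← Real.cos_pi_div_three]
    exact Real.cos_le_cos_of_nonneg_of_le_pi h1.le h3 h2
  · have h4 := Real.cos_lt_cos_of_nonneg_of_le_pi le_rfl (h2.trans h3) h1
    rwa [Real.cos_zero] at h4

private lemma k_bounds {c : ℝ} (h1 : 1 / 2 ≤ c) (h2 : c < 1) :
    0 < c / (1 + c) ∧ c / (1 + c) < 1 / 2 := by
  constructor
  · apply div_pos <;> linarith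
  · rw [div_lt_iff₀ (by linarith)]
    linarith

private lemma rad_bounds (n : ℕ) (hn : 1 ≤ n) :
    Real.pi / 2 < 4 * rad n ∧ 4 * rad n < 2 * Real.pi / 3 ∧
      Real.cos (4 * rad n) =
        -(Real.cos (Real.pi / (2 * n + 1)) / (1 + Real.cos (Real.pi / (2 * n + 1)))) := by
  obtain ⟨h1, h2⟩ := c_bounds n hn
  obtain ⟨k1, k2⟩ := k_bounds h1 h2
  have hr : 4 * rad n = Real.arccos
      (-(Real.cos (Real.pi / (2 * n + 1)) / (1 + Real.cos (Real.pi / (2 * n + 1))))) := by
    unfold rad
    ring
  rw [hr]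
  generalize Real.cos (Real.pi / (2 * n + 1)) / (1 + Real.cos (Real.pi / (2 * n + 1))) = κ at k1 k2
  refine ⟨?_, ?_, ?_⟩
  · rw [← Real.arccos_zero]
    exact Real.arccos_lt_arccos (by linarith) (by linarith) (by norm_num)
  · have h3 : Real.arccos (-(1 / 2)) = 2 * Real.pi / 3 := by
      rw [Real.arccos_neg, ← Real.cos_pi_div_three,
        Real.arccos_cos (by have := Real.pi_pos; linarith) (by have := Real.pi_pos; linarith)]
      ring
    rw [← h3]
    exact Real.arccos_lt_arccos (by norm_num) (by linarith) (by linarith)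
  · exact Real.cos_arccos (by linarith) (by linarith)

theorem pa : T_PA := by
  refine ⟨?_, ?_⟩
  · intro n hn
    obtain ⟨h1, h2, _⟩ := rad_bounds n hn
    have := Real.pi_pos
    constructor <;> linarith
  · intro n r hn hr1 hr2
    obtain ⟨c1, c2⟩ := c_bounds n hn
    obtain ⟨h1, h2, h3⟩ := rad_bounds n hn
    have hpi := Real.pi_pos
    set c := Real.cos (Real.pi / (2 * n + 1)) with hc
    have hr4 : Real.pi / 4 < r := by linarith
    have hu : Real.cos (2 * r) < -(c / (1 + c)) := by
      rw [← h3]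
      exact Real.cos_lt_cos_of_nonneg_of_le_pi (by linarith) (by linarith) (by linarith)
    have hu2 : (1 + c) * Real.cos (2 * r) + c < 0 := by
      have h4 : (1 + c) * Real.cos (2 * r) < (1 + c) * -(c / (1 + c)) :=
        mul_lt_mul_of_pos_left hu (by linarith)
      have h5 : (1 + c) * -(c / (1 + c)) = -c := by
        field_simp
      linarith
    have hs : Real.sin (2 * r) ^ 2 = 1 - Real.cos (2 * r) ^ 2 := Real.sin_sq _
    have hpos : 0 < Real.cos (2 * r) ^ 2 - c * Real.sin (2 * r) ^ 2 - Real.cos (2 * r) := by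
      rw [hs]
      have h6 : Real.cos (2 * r) ^ 2 - c * (1 - Real.cos (2 * r) ^ 2) - Real.cos (2 * r) =
          (1 - Real.cos (2 * r)) * -((1 + c) * Real.cos (2 * r) + c) := by ring
      rw [h6]
      apply mul_pos
      · have : Real.cos (2 * r) < 0 := by
          have : 0 < c / (1 + c) := by apply div_pos <;> linarith
          linarith
        linarith
      · linarith
    have hcont : Continuous fun ρ : ℝ =>
        Real.cos (2 * ρ) ^ 2 - c * Real.sin (2 * ρ) ^ 2 - Real.cos (2 * r) := by fun_prop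
    have hev := hcont.continuousAt (x := r) |>.eventually (lt_mem_nhds hpos)
    obtain ⟨δ, hδ, hball⟩ := Metric.eventually_nhds_iff.1 hev
    set ρ₁ := max (r - δ / 2) ((r + Real.pi / 4) / 2) with hρ₁
    have e1 : Real.pi / 4 < ρ₁ := lt_of_lt_of_le (by linarith) (le_max_right _ _)
    have e2 : ρ₁ < r := max_lt (by linarith) (by linarith)
    have e3 : r - δ / 2 ≤ ρ₁ := le_max_left _ _
    have e4 := hball (y := ρ₁) (by
      rw [Real.dist_eq, abs_lt]
      constructor <;> linarith)
    have e5 : Real.pi - r - ρ₁ < Real.pi / 2 := by linarith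
    have e6 : max 0 (Real.pi - r - ρ₁) < Real.pi / 2 := max_lt (by linarith) e5
    have e7 : 0 ≤ max 0 (Real.pi - r - ρ₁) := le_max_left _ _
    have e8 : Real.pi - r - ρ₁ ≤ max 0 (Real.pi - r - ρ₁) := le_max_right _ _
    refine ⟨ρ₁, (max 0 (Real.pi - r - ρ₁) + Real.pi / 2) / 2, e1, e2, by linarith, by linarith,
      by linarith, ?_⟩
    linarith

end Pool.Agent.H50.FR
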